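import Mathlib

/-!
# The polynomial inequality behind the estimate for six-dimensional Einstein curvature tensors
-/

set_option autoImplicit false

namespace Pool.Agent.W714.HE

/-- the cubic form, homogenised by `h` (one fifth of the sum of the variables) -/
def GG (h a b c d e : ℝ) : ℝ :=
  275 * h ^ 3 - 236 * h * (a ^ 2 + b ^ 2 + c ^ 2 + d ^ 2 + e ^ 2)
    + 80 * (a ^ 3 + b ^ 3 + c ^ 3 + d ^ 3 + e ^ 3)
    + 960 * h ^ 2 * b - 640 * h * b ^ 2 + 64 * b * (a ^ 2 + b ^ 2 + c ^ 2 + d ^ 2 + e ^ 2)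
    - 64 * (a - b) * ((3 * h + a) * (b - d) + (3 * h + e) * (d - e))

theorem cert_eq (s1 s2 s3 s4 s5 h s0 : ℝ) (hh : h = (s1 + 2 * s2 + 3 * s3 + 4 * s4 + 5 * s5) / 5)
    (h0 : s0 = 2 * h - (s1 + s2 + s3 + s4 + s5)) :
    GG h (s1 + s2 + s3 + s4 + s5) (s2 + s3 + s4 + s5) (s3 + s4 + s5) (s4 + s5) s5 - 27 / 10 * h ^ 3 =
      (4611/100) * (s2 * (s1 - (1/4) * s2) ^ 2)
      + (27/20) * (s2 * (s2 - 2 * s4) ^ 2)
      + (121/20) * (s2 * (s1 - (1/2) * s3) ^ 2)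
      + (127/25) * (s2 * (s5 - 4 * s0) ^ 2)
      + (392/5) * (s3 * (s5 - 1 * s0) ^ 2)
      + (787/25) * (s0 * (s3 - (1/4) * s4) ^ 2)
      + (26981/100) * (s1 * s3 * s0)
      + (167/100) * (s5 * (s4 - 4 * s0) ^ 2)
      + (419/50) * (s4 * (s1 - (1/2) * s3) ^ 2)
      + (2117/25) * (s2 * s0 * s0)
      + (61/50) * (s0 * (s1 - 2 * s0) ^ 2)
      + (3073/100) * (s3 * (s5 - 2 * s0) ^ 2)
      + (253/25) * (s4 * (s1 - 1 * s3) ^ 2)
      + (4776/25) * (s1 * s2 * s0)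
      + (1774/25) * (s4 * s5 * s0)
      + (45/2) * (s3 * (s1 - (1/2) * s3) ^ 2)
      + (29/100) * (s2 * (s3 - 4 * s0) ^ 2)
      + (61/10) * (s2 * (s4 - 4 * s0) ^ 2)
      + (33/4) * (s3 * (s4 - 4 * s0) ^ 2)
      + (33/25) * (s3 * (s2 - 1 * s3) ^ 2)
      + (2/25) * (s3 * (s3 - 4 * s5) ^ 2)
      + (241/25) * (s4 * (s2 - 2 * s4) ^ 2)
      + (511/25) * (s1 * s5 * s0)
      + (94/5) * (s1 * (s1 - 2 * s0) ^ 2)
      + (3343/100) * (s3 * (s1 - (1/3) * s2) ^ 2)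
      + (1977/50) * (s2 * (s1 - (1/3) * s3) ^ 2)
      + (559/50) * (s0 * (s1 - 3 * s0) ^ 2)
      + (3/25) * (s1 * s1 * s1)
      + (58/625) * (s1 * s1 * s2)
      + (29/250) * (s1 * s1 * s3)
      + (56/625) * (s1 * s1 * s4)
      + (43/625) * (s1 * s1 * s5)
      + (511/5000) * (s1 * s2 * s2)
      + (224/1875) * (s1 * s2 * s3)
      + (103/625) * (s1 * s2 * s4)
      + (45082/625) * (s1 * s2 * s5)
      + (53/500) * (s1 * s3 * s3)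
      + (309/2500) * (s1 * s3 * s4)
      + (88467/2500) * (s1 * s3 * s5)
      + (1413/10000) * (s1 * s4 * s4)
      + (134334/625) * (s1 * s4 * s5)
      + (34708/125) * (s1 * s5 * s5)
      + (4453/40000) * (s2 * s2 * s2)
      + (2591/22500) * (s2 * s2 * s3)
      + (169/1250) * (s2 * s2 * s4)
      + (159/1250) * (s2 * s2 * s5)
      + (3221/30000) * (s2 * s3 * s3)
      + (143/1250) * (s2 * s3 * s4)
      + (76/625) * (s2 * s3 * s5)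
      + (959/10000) * (s2 * s4 * s4)
      + (33/625) * (s2 * s4 * s5)
      + (27/250) * (s2 * s5 * s5)
      + (119/1000) * (s3 * s3 * s3)
      + (597/5000) * (s3 * s3 * s4)
      + (82/625) * (s3 * s3 * s5)
      + (1069/10000) * (s3 * s4 * s4)
      + (144899/1250) * (s3 * s4 * s5)
      + (71/500) * (s3 * s5 * s5)
      + (891/10000) * (s4 * s4 * s4)
      + (1210593/10000) * (s4 * s4 * s5)
      + (9489/250) * (s4 * s5 * s5)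
      + (2/25) * (s5 * s5 * s5) := by
  subst h0
  subst hh
  unfold GG
  ring

theorem cert (s1 s2 s3 s4 s5 : ℝ) (hs1 : 0 ≤ s1) (hs2 : 0 ≤ s2) (hs3 : 0 ≤ s3) (hs4 : 0 ≤ s4)
    (hs5 : 0 ≤ s5) (hsum : s1 + 2 * s2 + 3 * s3 + 4 * s4 + 5 * s5 = 5)
    (htop : s1 + s2 + s3 + s4 + s5 ≤ 2) :
    27 / 10 ≤ GG 1 (s1 + s2 + s3 + s4 + s5) (s2 + s3 + s4 + s5) (s3 + s4 + s5) (s4 + s5) s5 := by
  obtain ⟨s0, h0⟩ : ∃ s0 : ℝ, s0 = 2 * 1 - (s1 + s2 + s3 + s4 + s5) := ⟨_, rfl⟩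
  have hs0 : 0 ≤ s0 := by rw [h0]; linarith
  have key := cert_eq s1 s2 s3 s4 s5 1 s0 (by rw [hsum]; norm_num) h0
  have t0 : 0 ≤ (4611/100) * (s2 * (s1 - (1/4) * s2) ^ 2) := mul_nonneg (by norm_num) (mul_nonneg hs2 (sq_nonneg _))
  have t1 : 0 ≤ (27/20) * (s2 * (s2 - 2 * s4) ^ 2) := mul_nonneg (by norm_num) (mul_nonneg hs2 (sq_nonneg _))
  have t2 : 0 ≤ (121/20) * (s2 * (s1 - (1/2) * s3) ^ 2) := mul_nonneg (by norm_num) (mul_nonneg hs2 (sq_nonneg _))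
  have t3 : 0 ≤ (127/25) * (s2 * (s5 - 4 * s0) ^ 2) := mul_nonneg (by norm_num) (mul_nonneg hs2 (sq_nonneg _))
  have t4 : 0 ≤ (392/5) * (s3 * (s5 - 1 * s0) ^ 2) := mul_nonneg (by norm_num) (mul_nonneg hs3 (sq_nonneg _))
  have t5 : 0 ≤ (787/25) * (s0 * (s3 - (1/4) * s4) ^ 2) := mul_nonneg (by norm_num) (mul_nonneg hs0 (sq_nonneg _))
  have t6 : 0 ≤ (26981/100) * (s1 * s3 * s0) := mul_nonneg (by norm_num) (mul_nonneg (mul_nonneg hs1 hs3) hs0)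
  have t7 : 0 ≤ (167/100) * (s5 * (s4 - 4 * s0) ^ 2) := mul_nonneg (by norm_num) (mul_nonneg hs5 (sq_nonneg _))
  have t8 : 0 ≤ (419/50) * (s4 * (s1 - (1/2) * s3) ^ 2) := mul_nonneg (by norm_num) (mul_nonneg hs4 (sq_nonneg _))
  have t9 : 0 ≤ (2117/25) * (s2 * s0 * s0) := mul_nonneg (by norm_num) (mul_nonneg (mul_nonneg hs2 hs0) hs0)
  have t10 : 0 ≤ (61/50) * (s0 * (s1 - 2 * s0) ^ 2) := mul_nonneg (by norm_num) (mul_nonneg hs0 (sq_nonneg _))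
  have t11 : 0 ≤ (3073/100) * (s3 * (s5 - 2 * s0) ^ 2) := mul_nonneg (by norm_num) (mul_nonneg hs3 (sq_nonneg _))
  have t12 : 0 ≤ (253/25) * (s4 * (s1 - 1 * s3) ^ 2) := mul_nonneg (by norm_num) (mul_nonneg hs4 (sq_nonneg _))
  have t13 : 0 ≤ (4776/25) * (s1 * s2 * s0) := mul_nonneg (by norm_num) (mul_nonneg (mul_nonneg hs1 hs2) hs0)
  have t14 : 0 ≤ (1774/25) * (s4 * s5 * s0) := mul_nonneg (by norm_num) (mul_nonneg (mul_nonneg hs4 hs5) hs0)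
  have t15 : 0 ≤ (45/2) * (s3 * (s1 - (1/2) * s3) ^ 2) := mul_nonneg (by norm_num) (mul_nonneg hs3 (sq_nonneg _))
  have t16 : 0 ≤ (29/100) * (s2 * (s3 - 4 * s0) ^ 2) := mul_nonneg (by norm_num) (mul_nonneg hs2 (sq_nonneg _))
  have t17 : 0 ≤ (61/10) * (s2 * (s4 - 4 * s0) ^ 2) := mul_nonneg (by norm_num) (mul_nonneg hs2 (sq_nonneg _))
  have t18 : 0 ≤ (33/4) * (s3 * (s4 - 4 * s0) ^ 2) := mul_nonneg (by norm_num) (mul_nonneg hs3 (sq_nonneg _))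
  have t19 : 0 ≤ (33/25) * (s3 * (s2 - 1 * s3) ^ 2) := mul_nonneg (by norm_num) (mul_nonneg hs3 (sq_nonneg _))
  have t20 : 0 ≤ (2/25) * (s3 * (s3 - 4 * s5) ^ 2) := mul_nonneg (by norm_num) (mul_nonneg hs3 (sq_nonneg _))
  have t21 : 0 ≤ (241/25) * (s4 * (s2 - 2 * s4) ^ 2) := mul_nonneg (by norm_num) (mul_nonneg hs4 (sq_nonneg _))
  have t22 : 0 ≤ (511/25) * (s1 * s5 * s0) := mul_nonneg (by norm_num) (mul_nonneg (mul_nonneg hs1 hs5) hs0)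
  have t23 : 0 ≤ (94/5) * (s1 * (s1 - 2 * s0) ^ 2) := mul_nonneg (by norm_num) (mul_nonneg hs1 (sq_nonneg _))
  have t24 : 0 ≤ (3343/100) * (s3 * (s1 - (1/3) * s2) ^ 2) := mul_nonneg (by norm_num) (mul_nonneg hs3 (sq_nonneg _))
  have t25 : 0 ≤ (1977/50) * (s2 * (s1 - (1/3) * s3) ^ 2) := mul_nonneg (by norm_num) (mul_nonneg hs2 (sq_nonneg _))
  have t26 : 0 ≤ (559/50) * (s0 * (s1 - 3 * s0) ^ 2) := mul_nonneg (by norm_num) (mul_nonneg hs0 (sq_nonneg _))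
  have t27 : 0 ≤ (3/25) * (s1 * s1 * s1) := mul_nonneg (by norm_num) (mul_nonneg (mul_nonneg hs1 hs1) hs1)
  have t28 : 0 ≤ (58/625) * (s1 * s1 * s2) := mul_nonneg (by norm_num) (mul_nonneg (mul_nonneg hs1 hs1) hs2)
  have t29 : 0 ≤ (29/250) * (s1 * s1 * s3) := mul_nonneg (by norm_num) (mul_nonneg (mul_nonneg hs1 hs1) hs3)
  have t30 : 0 ≤ (56/625) * (s1 * s1 * s4) := mul_nonneg (by norm_num) (mul_nonneg (mul_nonneg hs1 hs1) hs4)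
  have t31 : 0 ≤ (43/625) * (s1 * s1 * s5) := mul_nonneg (by norm_num) (mul_nonneg (mul_nonneg hs1 hs1) hs5)
  have t32 : 0 ≤ (511/5000) * (s1 * s2 * s2) := mul_nonneg (by norm_num) (mul_nonneg (mul_nonneg hs1 hs2) hs2)
  have t33 : 0 ≤ (224/1875) * (s1 * s2 * s3) := mul_nonneg (by norm_num) (mul_nonneg (mul_nonneg hs1 hs2) hs3)
  have t34 : 0 ≤ (103/625) * (s1 * s2 * s4) := mul_nonneg (by norm_num) (mul_nonneg (mul_nonneg hs1 hs2) hs4)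
  have t35 : 0 ≤ (45082/625) * (s1 * s2 * s5) := mul_nonneg (by norm_num) (mul_nonneg (mul_nonneg hs1 hs2) hs5)
  have t36 : 0 ≤ (53/500) * (s1 * s3 * s3) := mul_nonneg (by norm_num) (mul_nonneg (mul_nonneg hs1 hs3) hs3)
  have t37 : 0 ≤ (309/2500) * (s1 * s3 * s4) := mul_nonneg (by norm_num) (mul_nonneg (mul_nonneg hs1 hs3) hs4)
  have t38 : 0 ≤ (88467/2500) * (s1 * s3 * s5) := mul_nonneg (by norm_num) (mul_nonneg (mul_nonneg hs1 hs3) hs5)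
  have t39 : 0 ≤ (1413/10000) * (s1 * s4 * s4) := mul_nonneg (by norm_num) (mul_nonneg (mul_nonneg hs1 hs4) hs4)
  have t40 : 0 ≤ (134334/625) * (s1 * s4 * s5) := mul_nonneg (by norm_num) (mul_nonneg (mul_nonneg hs1 hs4) hs5)
  have t41 : 0 ≤ (34708/125) * (s1 * s5 * s5) := mul_nonneg (by norm_num) (mul_nonneg (mul_nonneg hs1 hs5) hs5)
  have t42 : 0 ≤ (4453/40000) * (s2 * s2 * s2) := mul_nonneg (by norm_num) (mul_nonneg (mul_nonneg hs2 hs2) hs2)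
  have t43 : 0 ≤ (2591/22500) * (s2 * s2 * s3) := mul_nonneg (by norm_num) (mul_nonneg (mul_nonneg hs2 hs2) hs3)
  have t44 : 0 ≤ (169/1250) * (s2 * s2 * s4) := mul_nonneg (by norm_num) (mul_nonneg (mul_nonneg hs2 hs2) hs4)
  have t45 : 0 ≤ (159/1250) * (s2 * s2 * s5) := mul_nonneg (by norm_num) (mul_nonneg (mul_nonneg hs2 hs2) hs5)
  have t46 : 0 ≤ (3221/30000) * (s2 * s3 * s3) := mul_nonneg (by norm_num) (mul_nonneg (mul_nonneg hs2 hs3) hs3)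
  have t47 : 0 ≤ (143/1250) * (s2 * s3 * s4) := mul_nonneg (by norm_num) (mul_nonneg (mul_nonneg hs2 hs3) hs4)
  have t48 : 0 ≤ (76/625) * (s2 * s3 * s5) := mul_nonneg (by norm_num) (mul_nonneg (mul_nonneg hs2 hs3) hs5)
  have t49 : 0 ≤ (959/10000) * (s2 * s4 * s4) := mul_nonneg (by norm_num) (mul_nonneg (mul_nonneg hs2 hs4) hs4)
  have t50 : 0 ≤ (33/625) * (s2 * s4 * s5) := mul_nonneg (by norm_num) (mul_nonneg (mul_nonneg hs2 hs4) hs5)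
  have t51 : 0 ≤ (27/250) * (s2 * s5 * s5) := mul_nonneg (by norm_num) (mul_nonneg (mul_nonneg hs2 hs5) hs5)
  have t52 : 0 ≤ (119/1000) * (s3 * s3 * s3) := mul_nonneg (by norm_num) (mul_nonneg (mul_nonneg hs3 hs3) hs3)
  have t53 : 0 ≤ (597/5000) * (s3 * s3 * s4) := mul_nonneg (by norm_num) (mul_nonneg (mul_nonneg hs3 hs3) hs4)
  have t54 : 0 ≤ (82/625) * (s3 * s3 * s5) := mul_nonneg (by norm_num) (mul_nonneg (mul_nonneg hs3 hs3) hs5)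
  have t55 : 0 ≤ (1069/10000) * (s3 * s4 * s4) := mul_nonneg (by norm_num) (mul_nonneg (mul_nonneg hs3 hs4) hs4)
  have t56 : 0 ≤ (144899/1250) * (s3 * s4 * s5) := mul_nonneg (by norm_num) (mul_nonneg (mul_nonneg hs3 hs4) hs5)
  have t57 : 0 ≤ (71/500) * (s3 * s5 * s5) := mul_nonneg (by norm_num) (mul_nonneg (mul_nonneg hs3 hs5) hs5)
  have t58 : 0 ≤ (891/10000) * (s4 * s4 * s4) := mul_nonneg (by norm_num) (mul_nonneg (mul_nonneg hs4 hs4) hs4)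
  have t59 : 0 ≤ (1210593/10000) * (s4 * s4 * s5) := mul_nonneg (by norm_num) (mul_nonneg (mul_nonneg hs4 hs4) hs5)
  have t60 : 0 ≤ (9489/250) * (s4 * s5 * s5) := mul_nonneg (by norm_num) (mul_nonneg (mul_nonneg hs4 hs5) hs5)
  have t61 : 0 ≤ (2/25) * (s5 * s5 * s5) := mul_nonneg (by norm_num) (mul_nonneg (mul_nonneg hs5 hs5) hs5)
  linarith

end Pool.Agent.W714.HE
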