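import Pool.Agent.W714.HE.Cert

/-!
# The pointwise inequality for the eigenvalues of a Jacobi operator
-/

set_option autoImplicit false

open scoped BigOperators

namespace Pool.Agent.W714.HE

theorem sorted_ineq (a b c d e K01 K02 K03 K04 K12 K13 K14 K23 K24 K34 : ℝ)
    (hab : b ≤ a) (hbc : c ≤ b) (hcd : d ≤ c) (hde : e ≤ d) (he : 0 ≤ e) (ha : a ≤ 2)
    (hs : a + b + c + d + e = 5)
    (r0 : K01 + K02 + K03 + K04 = 5 - a) (r1 : K01 + K12 + K13 + K14 = 5 - b)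
    (r2 : K02 + K12 + K23 + K24 = 5 - c) (r3 : K03 + K13 + K23 + K34 = 5 - d)
    (r4 : K04 + K14 + K24 + K34 = 5 - e)
    (h01 : K01 ≤ 2) (h02 : K02 ≤ 2) (h14 : K14 ≤ 2) (h23 : K23 ≤ 2) (h24 : K24 ≤ 2)
    (h34 : K34 ≤ 2) :
    27 / 10 ≤ 1875 - 300 * (a ^ 2 + b ^ 2 + c ^ 2 + d ^ 2 + e ^ 2)
      + 80 * (a ^ 3 + b ^ 3 + c ^ 3 + d ^ 3 + e ^ 3)
      - 64 * (a * b * K01 + a * c * K02 + a * d * K03 + a * e * K04 + b * c * K12 + b * d * K13
        + b * e * K14 + c * d * K23 + c * e * K24 + d * e * K34) := by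
  have hab' := sub_nonneg.2 hab
  have hbc' := sub_nonneg.2 hbc
  have hcd' := sub_nonneg.2 hcd
  have hde' := sub_nonneg.2 hde
  have hbd' : 0 ≤ b - d := by linarith
  have hbe' : 0 ≤ b - e := by linarith
  have p01 : 0 ≤ (a - b) * (b - d) * (2 - K01) :=
    mul_nonneg (mul_nonneg hab' hbd') (sub_nonneg.2 h01)
  have p02 : 0 ≤ (a - b) * (c - d) * (2 - K02) :=
    mul_nonneg (mul_nonneg hab' hcd') (sub_nonneg.2 h02)
  have p14 : 0 ≤ (a - b) * (d - e) * (2 - K14) :=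
    mul_nonneg (mul_nonneg hab' hde') (sub_nonneg.2 h14)
  have p23 : 0 ≤ (b - c) * (b - d) * (2 - K23) :=
    mul_nonneg (mul_nonneg hbc' hbd') (sub_nonneg.2 h23)
  have p24 : 0 ≤ ((b - c) * (b - e) + (a - b) * (d - e)) * (2 - K24) :=
    mul_nonneg (add_nonneg (mul_nonneg hbc' hbe') (mul_nonneg hab' hde')) (sub_nonneg.2 h24)
  have p34 : 0 ≤ ((b - d) * (b - e) + (a - b) * (d - e)) * (2 - K34) :=
    mul_nonneg (add_nonneg (mul_nonneg hbd' hbe') (mul_nonneg hab' hde')) (sub_nonneg.2 h34)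
  have hc := cert (a - b) (b - c) (c - d) (d - e) e hab' hbc' hcd' hde' he (by linarith)
    (by linarith)
  have e1 : a - b + (b - c) + (c - d) + (d - e) + e = a := by ring
  have e2 : b - c + (c - d) + (d - e) + e = b := by ring
  have e3 : c - d + (d - e) + e = c := by ring
  have e4 : d - e + e = d := by ring
  rw [e1, e2, e3, e4] at hc
  have key : 1875 - 300 * (a ^ 2 + b ^ 2 + c ^ 2 + d ^ 2 + e ^ 2)
      + 80 * (a ^ 3 + b ^ 3 + c ^ 3 + d ^ 3 + e ^ 3)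
      - 64 * (a * b * K01 + a * c * K02 + a * d * K03 + a * e * K04 + b * c * K12 + b * d * K13
        + b * e * K14 + c * d * K23 + c * e * K24 + d * e * K34) =
      GG 1 a b c d e + 64 * ((a - b) * (b - d) * (2 - K01) + (a - b) * (c - d) * (2 - K02)
        + (a - b) * (d - e) * (2 - K14) + (b - c) * (b - d) * (2 - K23)
        + ((b - c) * (b - e) + (a - b) * (d - e)) * (2 - K24)
        + ((b - d) * (b - e) + (a - b) * (d - e)) * (2 - K34)) := by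
    have h5 : e = 5 - a - b - c - d := by linarith
    unfold GG
    subst h5
    linear_combination
      (-64 * (b * a - b ^ 2 / 2 - (a - b) * (b - d))) * r0
      + (-64 * (b * b - b ^ 2 / 2)) * r1
      + (-64 * (b * c - b ^ 2 / 2)) * r2
      + (-64 * (b * d - b ^ 2 / 2)) * r3
      + (-64 * (b * (5 - a - b - c - d) - b ^ 2 / 2 - (a - b) * (d - (5 - a - b - c - d)))) * r4
  rw [key]
  linarith

theorem fin_ineq (l : Fin 5 → ℝ) (K : Fin 5 → Fin 5 → ℝ) (hsym : ∀ i j, K i j = K j i)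
    (hd : ∀ i, K i i = 0) (hK : ∀ i j, K i j ≤ 2) (hrow : ∀ i, ∑ j, K i j = 5 - l i)
    (h0 : ∀ i, 0 ≤ l i) (h2 : ∀ i, l i ≤ 2) (hs : ∑ i, l i = 5) :
    27 / 10 ≤ 1875 - 300 * ∑ i, l i ^ 2 + 80 * ∑ i, l i ^ 3
      - 32 * ∑ i, ∑ j, l i * l j * K i j := by
  obtain ⟨σ, hσ⟩ : ∃ σ : Equiv.Perm (Fin 5), Antitone (l ∘ σ) := by
    refine ⟨Tuple.sort (fun i => - l i), fun i j hij => ?_⟩
    have h := Tuple.monotone_sort (fun i => - l i) hij
    simp only [Function.comp] at h ⊢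
    linarith
  have q2 : ∑ i, l i ^ 2 = ∑ i, l (σ i) ^ 2 := (Equiv.sum_comp σ (fun i => l i ^ 2)).symm
  have q3 : ∑ i, l i ^ 3 = ∑ i, l (σ i) ^ 3 := (Equiv.sum_comp σ (fun i => l i ^ 3)).symm
  have qs : ∑ i, l i = ∑ i, l (σ i) := (Equiv.sum_comp σ (fun i => l i)).symm
  have qq : ∑ i, ∑ j, l i * l j * K i j = ∑ i, ∑ j, l (σ i) * l (σ j) * K (σ i) (σ j) := by
    rw [← Equiv.sum_comp σ (fun i => ∑ j, l i * l j * K i j)]
    refine Finset.sum_congr rfl fun i _ => ?_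
    rw [← Equiv.sum_comp σ (fun j => l (σ i) * l j * K (σ i) j)]
  have hrow' : ∀ i, ∑ j, K (σ i) (σ j) = 5 - l (σ i) := fun i => by
    rw [Equiv.sum_comp σ (fun j => K (σ i) j), hrow]
  have r0 := hrow' 0
  have r1 := hrow' 1
  have r2 := hrow' 2
  have r3 := hrow' 3
  have r4 := hrow' 4
  rw [q2, q3, qq]
  rw [qs] at hs
  simp only [Fin.sum_univ_five, hd] at r0 r1 r2 r3 r4 hs ⊢
  rw [hsym (σ 1) (σ 0)] at r1 ⊢
  rw [hsym (σ 2) (σ 0), hsym (σ 2) (σ 1)] at r2 ⊢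
  rw [hsym (σ 3) (σ 0), hsym (σ 3) (σ 1), hsym (σ 3) (σ 2)] at r3 ⊢
  rw [hsym (σ 4) (σ 0), hsym (σ 4) (σ 1), hsym (σ 4) (σ 2), hsym (σ 4) (σ 3)] at r4 ⊢
  have m1 : l (σ 1) ≤ l (σ 0) := hσ (by decide)
  have m2 : l (σ 2) ≤ l (σ 1) := hσ (by decide)
  have m3 : l (σ 3) ≤ l (σ 2) := hσ (by decide)
  have m4 : l (σ 4) ≤ l (σ 3) := hσ (by decide)
  have := sorted_ineq (l (σ 0)) (l (σ 1)) (l (σ 2)) (l (σ 3)) (l (σ 4))
    (K (σ 0) (σ 1)) (K (σ 0) (σ 2)) (K (σ 0) (σ 3)) (K (σ 0) (σ 4)) (K (σ 1) (σ 2))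
    (K (σ 1) (σ 3)) (K (σ 1) (σ 4)) (K (σ 2) (σ 3)) (K (σ 2) (σ 4)) (K (σ 3) (σ 4))
    m1 m2 m3 m4 (h0 _) (h2 _) hs (by linarith) (by linarith) (by linarith) (by linarith)
    (by linarith) (hK _ _) (hK _ _) (hK _ _) (hK _ _) (hK _ _) (hK _ _)
  refine this.trans (le_of_eq ?_)
  ring

end Pool.Agent.W714.HE
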