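import Pool.Agent.H933R2.Hopf.Mean
import Pool.Agent.W714.HE.Pt

/-!
# Einstein curvature tensors of nonpositive sectional curvature in dimension six
-/

set_option autoImplicit false

open scoped BigOperators

namespace Pool.Agent.W714.HE

open Hopf6

section core
variable {R : Ten} (hE : ∀ a b, Rc R a b = if a = b then 5 else 0)
include hE

theorem sc_ein : sc R = 30 := by
  unfold sc
  simp only [hE, if_true]
  simp
  norm_num

theorem nR_ein : nR R = 150 := by
  unfold nR
  have : ∀ a, ∑ b, Rc R a b * Rc R a b = 25 := by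
    intro a
    simp only [hE]
    rw [Finset.sum_eq_single a]
    · norm_num
    · intro b _ hb
      rw [if_neg (Ne.symm hb), zero_mul]
    · simp
  simp only [this]
  simp
  norm_num

theorem I4_ein : I4 R = 750 := by
  unfold I4
  have : ∀ a, ∑ b, ∑ c, Rc R a b * Rc R b c * Rc R c a = 125 := by
    intro a
    simp only [hE]
    rw [Finset.sum_eq_single a]
    · rw [Finset.sum_eq_single a]
      · norm_num
      · intro c _ hc
        rw [if_neg (Ne.symm hc), mul_zero, zero_mul]
      · simp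
    · intro b _ hb
      refine Finset.sum_eq_zero fun c _ => ?_
      rw [if_neg (Ne.symm hb), zero_mul, zero_mul]
    · simp
  simp only [this]
  simp
  norm_num

theorem I5_ein : I5 R = 750 := by
  unfold I5
  have : ∀ a, ∑ b, ∑ c, ∑ d, Rc R a b * R a c b d * Rc R c d = 125 := by
    intro a
    have e1 : ∀ c, ∑ d, (5 : ℝ) * R a c a d * Rc R c d = 25 * R a c a c := by
      intro c
      simp only [hE]
      rw [Finset.sum_eq_single c]
      · rw [if_pos rfl]
        ring
      · intro d _ hd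
        rw [if_neg (Ne.symm hd), mul_zero]
      · simp
    rw [Finset.sum_eq_single a]
    · rw [hE a a, if_pos rfl, Finset.sum_congr rfl fun c _ => e1 c, ← Finset.mul_sum]
      have h := hE a a
      rw [if_pos rfl] at h
      have h2 : ∑ c, R a c a c = 5 := h
      rw [h2]
      norm_num
    · intro b _ hb
      refine Finset.sum_eq_zero fun c _ => Finset.sum_eq_zero fun d _ => ?_
      rw [hE a b, if_neg (Ne.symm hb), zero_mul, zero_mul]
    · simp
  simp only [this]
  simp
  norm_num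

theorem I6_ein : I6 R = 5 * nS R := by
  unfold I6
  have : ∀ a, ∑ b, Rc R a b * SS R a b = 5 * SS R a a := by
    intro a
    rw [Finset.sum_eq_single a]
    · rw [hE a a, if_pos rfl]
    · intro b _ hb
      rw [hE a b, if_neg (Ne.symm hb), zero_mul]
    · simp
  simp only [this]
  rw [← Finset.mul_sum]
  rfl

end core

theorem av_ff {ι : Type} [Fintype ι] (D : Design ι) {R : Ten} (hR : IsCurv R)
    (hE : ∀ a b, Rc R a b = if a = b then 5 else 0) :
    D.av (ff R) = 135 / 5760 * gb R := by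
  have e : ff R = comb R 1875 0 0 0 (-300) 0 0 0 0 0 0 0 80 0 0 0 0 0 0 0 (-32) 0 := by
    funext x
    unfold ff comb
    ring
  rw [e, av_comb D hR, gb_eq hR, sc_ein hE, nR_ein hE, I4_ein hE, I5_ein hE, I6_ein hE]
  ring

theorem ein_core {R : Ten} (hR : IsCurv R) (hE : ∀ a b, Rc R a b = if a = b then 5 else 0)
    (h : ∀ z : Fin 6 → ℝ, ∑ a, z a ^ 2 = 1 → ∀ y, 0 ≤ quad R z y ∧ quad R z y ≤ 2 * area2 z y) :
    5760 / 50 ≤ gb R := by
  obtain ⟨ι, _, ⟨D⟩⟩ := exists_design
  have h1 : 0 ≤ D.av (fun x => ff R x + -(27 / 10)) :=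
    D.av_nonneg fun i => by
      have := ff_ge hR hE (D.unit i) h
      linarith
  have h2 : D.av (fun x => ff R x + -(27 / 10)) = D.av (ff R) + -(27 / 10) := by
    rw [Design.av_add, Design.av_one]
  rw [h2, av_ff D hR hE] at h1
  linarith

section
variable {V : Type*} [NormedAddCommGroup V] [InnerProductSpace ℝ V]

/-- The Ricci tensor of `R`, computed in the orthonormal basis `e`, is `5 c` times the inner product
(for constant sectional curvature `c` it is). -/
def Einstein (e : OrthonormalBasis (Fin 6) ℝ V) (R : V → V → V → V → ℝ) (c : ℝ) : Prop :=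
  ∀ v w : V, ∑ i, R (e i) v (e i) w = 5 * c * inner ℝ v w

variable (e : OrthonormalBasis (Fin 6) ℝ V) {R : V → V → V → V → ℝ}

theorem comp_bound2 (hR : AlgCurv R) {c : ℝ} (hc : 0 < c) (h : SecIn R 0 (2 * c))
    (x : Fin 6 → ℝ) (hx : ∑ a, x a ^ 2 = 1) (y : Fin 6 → ℝ) :
    0 ≤ quad (scl c⁻¹ (tn e R)) x y ∧
      quad (scl c⁻¹ (tn e R)) x y ≤ 2 * area2 x y := by
  have hx1 : ‖vc e x‖ = 1 := by
    have := vc_norm e x
    rw [hx] at this
    nlinarith [norm_nonneg (vc e x)]
  have h1 := sec_bound hR h (vc e x) (vc e y) hx1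
  have ha : ‖vc e y‖ ^ 2 - inner ℝ (vc e x) (vc e y) ^ 2 = area2 x y := by
    rw [vc_norm, vc_inner]
    unfold area2
    rw [hx, one_mul]
  rw [ha, ← quad_tn e hR, zero_mul] at h1
  rw [quad_scl]
  constructor
  · exact mul_nonneg (inv_nonneg.2 hc.le) h1.1
  · calc c⁻¹ * quad (tn e R) x y ≤ c⁻¹ * (2 * c * area2 x y) :=
          mul_le_mul_of_nonneg_left h1.2 (inv_nonneg.2 hc.le)
      _ = 2 * area2 x y := by field_simp

theorem Rc_ein (hR : AlgCurv R) {c : ℝ} (hc : 0 < c) (hE : Einstein e R c) (a b : Fin 6) :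
    Rc (scl c⁻¹ (tn e R)) a b = if a = b then 5 else 0 := by
  have h1 := hE (e a) (e b)
  have h2 : Rc (scl c⁻¹ (tn e R)) a b = c⁻¹ * ∑ i, R (e i) (e a) (e i) (e b) := by
    unfold Rc scl tn
    rw [Finset.mul_sum]
    refine Finset.sum_congr rfl fun i _ => ?_
    have h3 : R (e a) (e i) (e b) (e i) = R (e i) (e a) (e i) (e b) := by
      rw [hR.anti (e i) (e a) (e b) (e i), hR.pair (e b) (e i) (e i) (e a),
        hR.anti (e i) (e b) (e i) (e a), hR.pair (e i) (e a) (e i) (e b)]
      ring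
    rw [h3]
  rw [h2, h1, orthonormal_iff_ite.1 e.orthonormal a b]
  split_ifs
  · field_simp
  · simp

theorem ein_pos (hR : AlgCurv R) {c : ℝ} (hc : 0 < c) (hE : Einstein e R c)
    (h : SecIn R 0 (2 * c)) : 5760 / 50 * c ^ 3 ≤ gb (tn e R) := by
  have h1 := ein_core (scl_curv (tn_curv e hR) c⁻¹) (Rc_ein e hR hc hE)
    (fun x hx y => comp_bound2 e hR hc h x hx y)
  rw [gb_scl] at h1
  have hc3 : 0 < c ^ 3 := by positivity
  calc 5760 / 50 * c ^ 3 ≤ (c⁻¹ ^ 3 * gb (tn e R)) * c ^ 3 := mul_le_mul_of_nonneg_right h1 hc3.le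
    _ = gb (tn e R) := by field_simp

theorem ein_neg (hR : AlgCurv R) {c : ℝ} (hc : 0 < c) (hE : Einstein e R (-c))
    (h : SecIn R (-(2 * c)) 0) : gb (tn e R) ≤ -(5760 / 50 * c ^ 3) := by
  have hE' : Einstein e (fun x y z w => - R x y z w) c := by
    intro v w
    have := hE v w
    rw [Finset.sum_neg_distrib, this]
    ring
  have h1 := ein_pos e (neg_curv hR) hc hE' (neg_sec (by rwa [neg_zero]))
  rw [gb_neg] at h1
  linarith

theorem ein_point_neg (hR : AlgCurv R) {c : ℝ} (hc : 0 < c) (hE : Einstein e R (-c))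
    (h : SecIn R (-(2 * c)) 0) : gbc e R ≤ -(1 / 50 * roundGB c) := by
  have h1 := ein_neg e hR hc hE h
  have hpi := Real.pi_pos
  rw [gbc_eq]
  calc 1 / ((8 * Real.pi) ^ 3 * 6) * gb (tn e R) ≤
      1 / ((8 * Real.pi) ^ 3 * 6) * (-(5760 / 50 * c ^ 3)) :=
        mul_le_mul_of_nonneg_left h1 (by positivity)
    _ = -(1 / 50 * roundGB c) := by
        unfold roundGB
        field_simp
        norm_num

end

end Pool.Agent.W714.HE
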